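import Pool.Agent.GraphicPolish.Main

/-!
# Every Polish group is graphic: the form with countably many Borel functions and diameter two

The graph constructed in `Pool.Agent.GraphicPolish.Main` is generated by countably many Borel functions, and any two
points of an orbit have distance at most two.
-/

set_option autoImplicit false

namespace H48I

open Topology Filter Set Pool.Agent.GraphicPolish

universe u v

/-- The generating functions, for a complete separable metric group and a standard Borel space. -/
theorem graphic_functions {G : Type u} [Group G] [MetricSpace G] [CompleteSpace G] [SecondCountableTopology G]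
    [IsTopologicalGroup G] [MeasurableSpace G] [BorelSpace G] {X : Type v} [MulAction G X]
    [MeasurableSpace X] [StandardBorelSpace X] [MeasurableSMul₂ G X] :
    ∃ f : ℕ → X → X, (∀ n, Measurable (f n)) ∧ (∀ n x, ∃ g : G, g • x = f n x) ∧
      ∀ (x : X) (g : G), ∃ (z : X) (m n : ℕ), f m z = x ∧ f n z = g • x := by
  obtain ⟨B⟩ := exists_base G
  obtain ⟨H, K, hH, hK, hHK⟩ := exists_decoder (X := X) B
  let f : ℕ → X → X := fun n y => match n with
    | 0 => (H y)⁻¹ • y
    | 1 => (K y * (H y)⁻¹) • y
    | (k + 2) => B.e k • y
  refine ⟨f, ?_, ?_, ?_⟩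
  · intro n
    match n with
    | 0 => exact hH.inv.smul measurable_id
    | 1 => exact (hK.mul hH.inv).smul measurable_id
    | (k + 2) => exact measurable_const_smul (B.e k)
  · intro n x
    match n with
    | 0 => exact ⟨_, rfl⟩
    | 1 => exact ⟨_, rfl⟩
    | (k + 2) => exact ⟨_, rfl⟩
  · intro x g
    by_cases hx : x ∈ X0 B X
    · obtain ⟨i, hi⟩ := exists_e_smul_of_mem_X0 B hx g
      refine ⟨x, 2, i + 2, ?_, hi⟩
      change B.e 0 • x = x
      rw [B.e_zero, one_smul]
    · obtain ⟨h, hh1, hh2⟩ := hHK x hx g
      refine ⟨h • x, 0, 1, ?_, ?_⟩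
      · change (H (h • x))⁻¹ • h • x = x
        rw [hh1, inv_smul_smul]
      · change (K (h • x) * (H (h • x))⁻¹) • h • x = g • x
        rw [hh1, hh2, mul_smul, inv_smul_smul]

end H48I
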